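import Pool.Agent.H54.V.LPDefs
set_option autoImplicit false
namespace Pool.Agent.H54.V

def K1 : LPData where
  cols := [(1, 683667, [481979]), (2, 780079, [572197]), (3, 735338, [603698]), (4, 568110, [500950]), (5, 322674, [372806]), (8, 154158, [15584]), (9, 155523, [132114]), (10, 93060, [45799])]
  f0 := 172728234725
  g0 := [113507504899]
  k0 := [[69974540752]]
  den := 10000
  tp := 5435
  tau := [5700]
  U := [5976]
  tz := [[6153]]

end Pool.Agent.H54.V
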