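import Pool.Agent.H54.V.LPDefs
set_option autoImplicit false
namespace Pool.Agent.H54.V

def K2 : LPData where
  cols := [(1, 702603, [511338, 452795]), (2, 801607, [608309, 538276]), (3, 755641, [632075, 588264]), (4, 583916, [520216, 496551]), (5, 331822, [368718, 403177]), (8, 159037, [45620, -36673]), (9, 160508, [140304, 121931]), (10, 96007, [53685, 34180])]
  f0 := 182467480144
  g0 := [124934252967, 106961538352]
  k0 := [[-1099511627776, 67741449262], [67741449262, -1099511627776]]
  den := 10000
  tp := 5305
  tau := [5625, 5875]
  U := [5836, 6047]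
  tz := [[6000, 6274], [6274, 6000]]

end Pool.Agent.H54.V
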