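import Pool.Agent.H54.V.LPDefs
set_option autoImplicit false
namespace Pool.Agent.H54.V

def K3 : LPData where
  cols := [(1, 714337, [488965, 464048]), (2, 814995, [587503, 555928]), (3, 768260, [626962, 605911]), (4, 593668, [524127, 511231]), (5, 337364, [391272, 405838]), (7, 0, [47, 28]), (8, 161693, [18454, -19695]), (9, 163188, [139515, 129428]), (10, 97610, [47123, 38799])]
  f0 := 188612487387
  g0 := [119127188204, 111504825005]
  k0 := [[-1099511627776, 63370282885], [63370282885, -1099511627776]]
  den := 10000
  tp := 5228
  tau := [5780, 5875]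
  U := [5913, 6008]
  tz := [[6000, 6366], [6366, 6000]]

end Pool.Agent.H54.V
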