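import Pool.Agent.H54.V.LPDefs
set_option autoImplicit false
namespace Pool.Agent.H54.V

def L1 : LPData where
  cols := [(1, 627493, []), (2, 715764, []), (3, 674734, []), (4, 521530, []), (5, 296688, []), (8, 142566, []), (9, 144481, []), (10, 87636, [])]
  f0 := 145591589441
  g0 := []
  k0 := []
  den := 10000
  tp := 5868
  tau := []
  U := []
  tz := []

end Pool.Agent.H54.V
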