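import Pool.Agent.H54.V.LPDefs
set_option autoImplicit false
namespace Pool.Agent.H54.V

def L10 : LPData where
  cols := [(1, 628387, [415355]), (2, 714840, [513057]), (3, 679313, [563133]), (4, 525354, [474778]), (5, 311514, [356555]), (8, 97290, [-15620]), (9, 125688, [121713]), (10, 30622, [19059])]
  f0 := 144493571571
  g0 := [86331000573]
  k0 := [[46623137688]]
  den := 100000
  tp := 60141
  tau := [60000]
  U := [63036]
  tz := [[65278]]

end Pool.Agent.H54.V
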