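import Pool.Agent.H54.V.LPDefs
set_option autoImplicit false
namespace Pool.Agent.H54.V

def L11 : LPData where
  cols := [(1, 727295, [350796]), (2, 829163, [431672]), (3, 781556, [505444]), (4, 604434, [445604]), (5, 344251, [393601]), (7, 23320, [-78828]), (8, 170316, [-85699]), (9, 172821, [94329]), (10, 105297, [18230])]
  f0 := 195757097804
  g0 := [80709029241]
  k0 := [[16117358398]]
  den := 100000
  tp := 51400
  tau := [62930]
  U := [63410]
  tz := [[68430]]

end Pool.Agent.H54.V
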