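import Pool.Agent.H54.V.LPDefs
set_option autoImplicit false
namespace Pool.Agent.H54.V

def L2 : LPData where
  cols := [(1, 627493, [507918]), (1, 0, [53]), (2, 715764, [608917]), (2, 0, [53]), (3, 674734, [626818]), (3, 0, [53]), (4, 521530, [517112]), (4, 0, [53]), (5, 296688, [347076]), (5, 0, [53]), (6, 0, [53]), (7, 0, [64]), (8, 142567, [79828]), (8, 0, [53]), (9, 144483, [154632]), (9, 0, [53]), (10, 87638, [70146]), (10, 0, [53])]
  f0 := 145591615563
  g0 := [111273446359]
  k0 := [[-1099511627776]]
  den := 10000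
  tp := 5868
  tau := [5625]
  U := [5963]
  tz := [[6000]]

end Pool.Agent.H54.V
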