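import Pool.Agent.H54.V.LPDefs
set_option autoImplicit false
namespace Pool.Agent.H54.V

def L3 : LPData where
  cols := [(1, 627481, [469506]), (2, 715759, [564346]), (3, 674724, [598768]), (4, 521520, [502459]), (5, 296628, [366945]), (8, 142501, [33524]), (9, 144418, [147262]), (10, 87447, [60282])]
  f0 := 145579669427
  g0 := [100842664258]
  k0 := [[-1099511627776]]
  den := 10000
  tp := 5868
  tau := [5775]
  U := [6077]
  tz := [[6000]]

end Pool.Agent.H54.V
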