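import Pool.Agent.H54.V.LPDefs
set_option autoImplicit false
namespace Pool.Agent.H54.V

def L4 : LPData where
  cols := [(1, 627481, [443825]), (2, 715759, [533750]), (3, 674724, [578146]), (4, 521520, [490236]), (5, 296628, [378084]), (8, 142501, [1688]), (9, 144418, [139062]), (10, 87447, [53614])]
  f0 := 145579669427
  g0 := [93966155380]
  k0 := [[-1099511627776]]
  den := 10000
  tp := 5868
  tau := [5875]
  U := [6155]
  tz := [[6000]]

end Pool.Agent.H54.V
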