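import Pool.Agent.H54.V.Defs
set_option autoImplicit false
namespace Pool.Agent.H54.V

/-- pieces `(a, b, p, P)` on `[a/1000, b/1000]`: `2^40 lam 1.21 ≥ p`, `P' = p`, `2^40 lens 1.21 ≥ P`. -/
def lensPieces : List (ℤ × ℤ × List ℤ × List ℤ) :=
  [(370, 372, [8736228022183, -69124347852442, 181983479287944, -159389164720300], [-826710092313, 8736228022183, -34562173926221, 60661159762648, -39847291180075]),
   (372, 376, [4617722769777, -35924902569942, 92775874190061, -79488060144972], [-443523072670, 4617722769777, -17962451284971, 30925291396687, -19872015036243]),
   (376, 382, [2448436951454, -18615566426808, 46736880734664, -38669940056284], [-239622973784, 2448436951454, -9307783213404, 15578960244888, -9667485014071]),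
   (382, 392, [1355201699113, -10033216553270, 24278156307267, -19079227420960], [-135177446487, 1355201699113, -5016608276635, 8092718769089, -4769806855240]),
   (392, 408, [768087113733, -5541696112580, 12824040392544, -9342176969384], [-77615882486, 768087113733, -2770848056290, 4274680130848, -2335544242346]),
   (408, 433, [440874496549, -3137113678312, 6933274686381, -4531278571840], [-44217497705, 440874496549, -1568556839156, 2311091562127, -1132819642960]),
   (433, 473, [235551333883, -1717005348722, 3658496888673, -2013492428484], [-21947822064, 235551333883, -858502674361, 1219498962891, -503373107121]),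
   (473, 514, [104526865756, -882775271210, 1887458660919, -759838351020], [-6509112898, 104526865756, -441387635605, 629152886973, -189959587755])]

end Pool.Agent.H54.V
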