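import Pool.Agent.H54.V.LPDefs
set_option autoImplicit false
namespace Pool.Agent.H54.V

def V1 : LPData where
  cols := [(1, 126646, [65069]), (2, 141331, [84943]), (3, 128040, [94221]), (4, 92838, [85860]), (5, 48249, [63756]), (8, 11690, [-3091])]
  f0 := 6028938140
  g0 := [2645238899]
  k0 := [[-1099511627776]]
  den := 10000
  tp := 5140
  tau := [6000]
  U := [6070]
  tz := [[6000]]

end Pool.Agent.H54.V
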