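import Pool.Agent.H54.V.LPDefs
set_option autoImplicit false
namespace Pool.Agent.H54.V

def V2 : LPData where
  cols := [(1, 126165, [52413]), (2, 139740, [66730]), (3, 127054, [81141]), (4, 93831, [73858]), (5, 49588, [70612]), (7, 4164, [-14924]), (8, 21116, [-17783]), (9, 17777, [18912])]
  f0 := 6052701240
  g0 := [2090933182]
  k0 := [[-1099511627776]]
  den := 10000
  tp := 5140
  tau := [6293]
  U := [6341]
  tz := [[6000]]

end Pool.Agent.H54.V
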